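import Pool.Agent.Helper89.UB.Stmts

set_option autoImplicit false

namespace Pool.Agent.Helper89.UB

open Finset

theorem st_SHC : ST_SHC := by
  intro n r R η hR h j hj1 hjn
  have hN : n + 1 ≠ 0 := Nat.succ_ne_zero n
  obtain ⟨ζ, hζ⟩ : ∃ ζ : ℂ, IsPrimitiveRoot ζ (n + 1) := ⟨_, Complex.isPrimitiveRoot_exp (n + 1) hN⟩
  have hζn : ‖ζ‖ = 1 := hζ.norm'_eq_one hN
  have hζ0 : ζ ≠ 0 := by
    intro h0
    rw [h0, norm_zero] at hζn
    exact zero_ne_one hζn
  have geo : ∀ i, i < n + 1 → i ≠ j → ∑ k ∈ range (n + 1), (ζ ^ i / ζ ^ j) ^ k = 0 := by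
    intro i hi hij
    have h1 : ζ ^ i / ζ ^ j ≠ 1 := by
      intro h2
      rw [div_eq_one_iff_eq (pow_ne_zero _ hζ0)] at h2
      exact hij (hζ.pow_inj hi (by omega) h2)
    rw [geom_sum_eq h1, div_pow, ← pow_mul, ← pow_mul, mul_comm i, mul_comm j, pow_mul, pow_mul,
      hζ.pow_eq_one, one_pow, one_pow, div_one, sub_self, zero_div]
  have key : ∑ k ∈ range (n + 1), (∑ i ∈ range (n + 1), r i * ((R : ℂ) * ζ ^ k) ^ i - 1) *
      (1 / ζ ^ j) ^ k = ((n + 1 : ℕ) : ℂ) * (r j * (R : ℂ) ^ j) := by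
    have e1 : ∀ k, (∑ i ∈ range (n + 1), r i * ((R : ℂ) * ζ ^ k) ^ i - 1) * (1 / ζ ^ j) ^ k =
        (∑ i ∈ range (n + 1), (r i * (R : ℂ) ^ i) * (ζ ^ i / ζ ^ j) ^ k) -
          (ζ ^ 0 / ζ ^ j) ^ k := by
      intro k
      rw [sub_mul, one_mul, pow_zero, Finset.sum_mul]
      congr 1
      refine Finset.sum_congr rfl fun i _ => ?_
      rw [mul_pow, ← pow_mul, mul_comm k i, pow_mul, one_div, inv_pow, div_pow, div_eq_mul_inv]
      ring
    rw [Finset.sum_congr rfl (fun k _ => e1 k), Finset.sum_sub_distrib, geo 0 (by omega) (by omega),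
      sub_zero, Finset.sum_comm]
    rw [Finset.sum_eq_single j]
    · rw [← Finset.mul_sum, div_self (pow_ne_zero _ hζ0)]
      simp only [one_pow, Finset.sum_const, Finset.card_range, nsmul_eq_mul, mul_one]
      ring
    · intro i hi hij
      rw [← Finset.mul_sum, geo i (Finset.mem_range.1 hi) hij, mul_zero]
    · intro h0
      exact absurd (Finset.mem_range.2 (by omega)) h0
  have h1 : ‖((n + 1 : ℕ) : ℂ) * (r j * (R : ℂ) ^ j)‖ ≤ ((n + 1 : ℕ) : ℝ) * η := by
    rw [← key]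
    refine (norm_sum_le _ _).trans ?_
    refine (Finset.sum_le_card_nsmul _ _ η fun k _ => ?_).trans ?_
    · rw [norm_mul, norm_pow, norm_div, norm_one, norm_pow, hζn, one_pow, div_one, one_pow, mul_one]
      apply h
      rw [norm_mul, norm_pow, hζn, one_pow, mul_one, Complex.norm_real, Real.norm_eq_abs,
        abs_of_pos hR]
    · rw [Finset.card_range, nsmul_eq_mul]
  rw [norm_mul, Complex.norm_natCast] at h1
  have h2 := le_of_mul_le_mul_left h1 (by positivity)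
  rw [norm_mul, norm_pow, Complex.norm_real, Real.norm_eq_abs, abs_of_pos hR] at h2
  rw [le_div_iff₀ (by positivity)]
  exact h2

end Pool.Agent.Helper89.UB
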